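import Pool.Agent.Helper33.AC.Semi
import Pool.Agent.Helper3.AC.NormalForm
import Pool.Agent.Helper7.AC.Run

/-!
# MP_29fd35_lc: prefix-free machines with an oracle and the Kraft-Chaitin theorem
-/

set_option autoImplicit false

namespace Pool.Agent.Helper13.BK

open Nat.Partrec (Code)
open Denumerable Encodable
open Pool.Agent.Helper7.AC (pre chi Tot dL dL_encode dL_prim semi)
open Pool.Agent.Helper3.AC (pre_length pre_take pre_prefix)

/-! ### Values of binary strings -/

/-- The value of a binary string. -/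
def bv (p : List Bool) : ℕ := p.foldl (fun a b => 2 * a + b.toNat) 0

theorem bv_foldl (a : ℕ) (q : List Bool) :
    q.foldl (fun a b => 2 * a + b.toNat) a = a * 2 ^ q.length + bv q := by
  unfold bv
  induction q generalizing a with
  | nil => simp
  | cons b q ih =>
    rw [List.foldl_cons, List.foldl_cons, ih, ih (2 * 0 + b.toNat), List.length_cons, pow_succ]
    ring

theorem bv_append (p q : List Bool) : bv (p ++ q) = bv p * 2 ^ q.length + bv q := by
  have h : bv (p ++ q) = q.foldl (fun a b => 2 * a + b.toNat) (bv p) := by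
    unfold bv
    rw [List.foldl_append]
  rw [h, bv_foldl]

theorem bv_lt (p : List Bool) : bv p < 2 ^ p.length := by
  induction p using List.reverseRecOn with
  | nil => simp [bv]
  | append_singleton p b ih =>
    rw [bv_append, List.length_append, List.length_singleton, pow_succ]
    have : bv [b] ≤ 1 := by cases b <;> simp [bv]
    omega

theorem exists_bv (L c : ℕ) (h : c < 2 ^ L) : ∃ p : List Bool, p.length = L ∧ bv p = c := by
  induction L generalizing c with
  | zero => exact ⟨[], rfl, by simp at h; simp [bv, h]⟩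
  | succ L ih =>
    obtain ⟨p, hp, hv⟩ := ih (c / 2) (by rw [pow_succ] at h; omega)
    refine ⟨p ++ [decide (c % 2 = 1)], by simp [hp], ?_⟩
    rw [bv_append, hv, List.length_singleton, pow_one]
    have h1 : bv [decide (c % 2 = 1)] = c % 2 := by
      rcases Nat.mod_two_eq_zero_or_one c with h2 | h2 <;> simp [bv, h2]
    rw [h1]
    omega

theorem bv_prim : Primrec bv := by
  have h := Primrec.list_foldl (f := fun p : List Bool => p) (g := fun _ => 0)
    (h := fun (_ : List Bool) (q : ℕ × Bool) => 2 * q.1 + q.2.toNat) Primrec.id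
    (Primrec.const 0) ?_
  · exact h
  · exact (Primrec.nat_add.comp (Primrec.nat_mul.comp (Primrec.const 2)
      (Primrec.fst.comp Primrec.snd)) ((Primrec.dom_bool Bool.toNat).comp
        (Primrec.snd.comp Primrec.snd))).to₂

theorem pow_prim : Primrec₂ (fun a b : ℕ => a ^ b) :=
  Primrec₂.unpaired'.1 Nat.Primrec.pow

/-! ### Requests -/

section requests

variable (R : List Bool → Option (ℕ × ℕ))

/-- scaled weight of the request at `β` -/
def sw (β : List Bool) : ℕ :=
  cond (R β).isSome (2 ^ (2 * β.length + 4 - ((R β).getD (0, 0)).1)) 0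

/-- scaled sum of the weights of the requests before the stage `i` -/
def T (β : List Bool) (i : ℕ) : ℕ := Nat.rec 0 (fun j a => 4 * a + sw R (β.take j)) i

/-- the string `p` is assigned to the request at `β` -/
def good (p β : List Bool) : Bool :=
  (R β).isSome && (decide (p.length = ((R β).getD (0, 0)).1 + 1) &&
    (decide (T R β β.length * 2 ^ p.length ≤ bv p * 4 ^ (β.length + 1)) &&
      decide (bv p * 4 ^ (β.length + 1) <
        T R β β.length * 2 ^ p.length + 4 ^ (β.length + 1))))

variable {R}

theorem sw_comp (hR : Computable R) : Computable (sw R) := by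
  unfold sw
  refine Computable.cond (Primrec.option_isSome.to_comp.comp hR) ?_ (Computable.const 0)
  refine pow_prim.to_comp.comp (Computable.const 2) ?_
  refine Primrec.nat_sub.to_comp.comp ?_
    (Computable.fst.comp (Computable.option_getD hR (Computable.const (0, 0))))
  exact Primrec.nat_add.to_comp.comp (Primrec.nat_mul.to_comp.comp (Computable.const 2)
    Computable.list_length) (Computable.const 4)

theorem T_comp (hR : Computable R) : Computable fun β : List Bool => T R β β.length := by
  unfold T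
  refine Computable.nat_rec (f := fun β : List Bool => β.length) (g := fun _ => 0)
    (h := fun (β : List Bool) (q : ℕ × ℕ) => 4 * q.2 + sw R (β.take q.1))
    Computable.list_length (Computable.const 0) ?_
  refine Primrec.nat_add.to_comp.comp (Primrec.nat_mul.to_comp.comp (Computable.const 4)
    (Computable.snd.comp Computable.snd)) ?_
  exact (sw_comp hR).comp (Primrec.list_take.to_comp.comp (Computable.fst.comp Computable.snd)
    Computable.fst)

theorem good_comp (hR : Computable R) : Computable₂ (good R) := by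
  have hl1 : Computable fun q : List Bool × List Bool => q.1.length :=
    Computable.list_length.comp Computable.fst
  have hl2 : Computable fun q : List Bool × List Bool => q.2.length :=
    Computable.list_length.comp Computable.snd
  have hp4 : Computable fun q : List Bool × List Bool => 4 ^ (q.2.length + 1) :=
    pow_prim.to_comp.comp (Computable.const 4) (Computable.succ.comp hl2)
  have hp2 : Computable fun q : List Bool × List Bool => 2 ^ q.1.length :=
    pow_prim.to_comp.comp (Computable.const 2) hl1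
  have hv : Computable fun q : List Bool × List Bool => bv q.1 * 4 ^ (q.2.length + 1) :=
    Primrec.nat_mul.to_comp.comp (bv_prim.to_comp.comp Computable.fst) hp4
  have hT : Computable fun q : List Bool × List Bool => T R q.2 q.2.length * 2 ^ q.1.length :=
    Primrec.nat_mul.to_comp.comp ((T_comp hR).comp Computable.snd) hp2
  have hr : Computable fun q : List Bool × List Bool => ((R q.2).getD (0, 0)).1 + 1 :=
    Computable.succ.comp (Computable.fst.comp (Computable.option_getD
      (hR.comp Computable.snd) (Computable.const (0, 0))))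
  have hle : Computable₂ fun a b : ℕ => decide (a ≤ b) := (PrimrecRel.decide Primrec.nat_le).to_comp
  have hlt : Computable₂ fun a b : ℕ => decide (a < b) := (PrimrecRel.decide Primrec.nat_lt).to_comp
  have heq : Computable₂ fun a b : ℕ => decide (a = b) := (PrimrecRel.decide Primrec.eq).to_comp
  have hand : Computable₂ (fun a b : Bool => a && b) := Primrec.and.to_comp
  exact hand.comp (Primrec.option_isSome.to_comp.comp (hR.comp Computable.snd))
    (hand.comp (heq.comp hl1 hr) (hand.comp (hle.comp hT hv)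
      (hlt.comp hv (Primrec.nat_add.to_comp.comp hT hp4))))

/-- the weight of a request -/
noncomputable def wt : Option (ℕ × ℕ) → ℝ
  | none => 0
  | some x => (1 / 2 : ℝ) ^ x.1

theorem wt_nonneg (o : Option (ℕ × ℕ)) : 0 ≤ wt o := by
  cases o with
  | none => exact le_rfl
  | some x => exact pow_nonneg (by norm_num) _

variable {B : ℕ → Bool}

theorem sw_eq (hr : ∀ j x, R (pre B j) = some x → x.1 ≤ 2 * j + 4) (j : ℕ) :
    (sw R (pre B j) : ℝ) = wt (R (pre B j)) * 4 ^ (j + 2) := by
  unfold sw
  rcases h : R (pre B j) with _ | x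
  · simp [wt]
  · have h1 := hr j x h
    simp only [Option.isSome_some, cond_true, Option.getD_some, wt, pre_length]
    push_cast
    have h2 : (4 : ℝ) ^ (j + 2) = 2 ^ x.1 * 2 ^ (2 * j + 4 - x.1) := by
      rw [← pow_add, Nat.add_sub_cancel' h1]
      have : (4 : ℝ) = 2 ^ 2 := by norm_num
      rw [this, ← pow_mul]
      congr 1
    rw [h2, ← mul_assoc, ← mul_pow]
    norm_num

theorem T_eq (hr : ∀ j x, R (pre B j) = some x → x.1 ≤ 2 * j + 4) (N i : ℕ) (hi : i ≤ N) :
    (T R (pre B N) i : ℝ) = (∑ j ∈ Finset.range i, wt (R (pre B j))) * 4 ^ (i + 1) := by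
  induction i with
  | zero => simp [T]
  | succ i ih =>
    have h1 : T R (pre B N) (i + 1) = 4 * T R (pre B N) i + sw R ((pre B N).take i) := rfl
    rw [h1, pre_take B (by omega : i ≤ N)]
    push_cast
    rw [ih (by omega), sw_eq hr, Finset.sum_range_succ]
    ring

end requests

/-! ### Machines -/

/-- A prefix-free machine relative to `B`. -/
structure Machine (B : ℕ → Bool) (M : List Bool →. List Bool) : Prop where
  comp : RecursiveIn {chi B} M
  pf : ∀ p q, (M p).Dom → (M q).Dom → p <+: q → p = q

/-- Complexity with respect to a machine. -/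
noncomputable def K (M : List Bool →. List Bool) (x : List Bool) : ℕ∞ :=
  ⨅ (p : List Bool) (_ : x ∈ M p), (p.length : ℕ∞)

theorem K_le {M : List Bool →. List Bool} {x p : List Bool} (h : x ∈ M p) :
    K M x ≤ (p.length : ℕ∞) := iInf₂_le p h

theorem le_K {M : List Bool →. List Bool} {x : List Bool} {a : ℕ∞}
    (h : ∀ p, x ∈ M p → a ≤ (p.length : ℕ∞)) : a ≤ K M x := le_iInf₂ h

/-- Search, with the stage as value. -/
theorem semi' {X : ℕ → Bool} (P : ℕ → List Bool → Bool) (hP : Computable₂ P) :
    ∃ ψ : ℕ →. ℕ, Nat.RecursiveIn {chi X} ψ ∧ ∀ n t, t ∈ ψ n ↔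
      P n (pre X t) = true ∧ ∀ s < t, P n (pre X s) = false := by
  have h1 : Computable (fun q : ℕ => Bool.toNat (!
      (P (Nat.unpair q).1 ((decode (Nat.unpair q).2 : Option (List Bool)).getD [])))) := by
    have ha : Computable (fun q : ℕ => (Nat.unpair q).1) :=
      (Computable.fst).comp Computable.unpair
    have hb : Computable (fun q : ℕ => ((decode (Nat.unpair q).2 : Option (List Bool)).getD [])) :=
      Computable.option_getD (Computable.decode.comp ((Computable.snd).comp Computable.unpair))
        (Computable.const [])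
    have hd : Computable (fun b : Bool => Bool.toNat (! b)) :=
      (Primrec.dom_bool _).to_comp
    exact hd.comp (hP.comp ha hb)
  have h2 : Tot X (fun p => Bool.toNat (! (P (Nat.unpair p).1 (pre X (Nat.unpair p).2)))) := by
    have ha : Tot X (fun p => (Nat.unpair p).1) :=
      Tot.of_computable ((Computable.fst).comp Computable.unpair)
    have hb : Tot X (fun p => encode (pre X (Nat.unpair p).2)) :=
      Tot.comp (Tot.pre X) (Tot.of_computable ((Computable.snd).comp Computable.unpair))
    have hc := Tot.comp (Tot.of_computable h1) (Tot.pair ha hb)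
    simpa using hc
  refine ⟨_, Nat.RecursiveIn.rfind h2, fun n t => ?_⟩
  simp only [Nat.unpair_pair]
  rw [Nat.mem_rfind]
  constructor
  · rintro ⟨ht, hs⟩
    refine ⟨by simpa using ht, fun s hst => ?_⟩
    have := hs hst
    simpa using this
  · rintro ⟨ht, hs⟩
    refine ⟨by simpa using ht, fun {s} hst => ?_⟩
    have := hs s hst
    simpa using this

/-! ### The Kraft-Chaitin theorem -/

section kc

variable {R : List Bool → Option (ℕ × ℕ)} {B : ℕ → Bool}

/-- sum of the weights of the first requests -/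
noncomputable def S (R : List Bool → Option (ℕ × ℕ)) (B : ℕ → Bool) (t : ℕ) : ℝ :=
  ∑ j ∈ Finset.range t, wt (R (pre B j))

theorem S_step {t s : ℕ} (h : t < s) : S R B t + wt (R (pre B t)) ≤ S R B s := by
  unfold S
  rw [← Finset.sum_range_succ]
  exact Finset.sum_le_sum_of_subset_of_nonneg (Finset.range_subset_range.2 h)
    fun j _ _ => wt_nonneg _

theorem good_iff (hr : ∀ j x, R (pre B j) = some x → x.1 ≤ 2 * j + 4) (p : List Bool) (t : ℕ) :
    good R p (pre B t) = true ↔ ∃ x, R (pre B t) = some x ∧ p.length = x.1 + 1 ∧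
      S R B t * 2 ^ p.length ≤ bv p ∧ (bv p : ℝ) < S R B t * 2 ^ p.length + 1 := by
  have hT := T_eq hr t t le_rfl
  have h4 : (0 : ℝ) < 4 ^ (t + 1) := by positivity
  have e1 : T R (pre B t) t * 2 ^ p.length ≤ bv p * 4 ^ (t + 1) ↔
      S R B t * 2 ^ p.length ≤ bv p := by
    rw [← Nat.cast_le (α := ℝ)]
    push_cast
    rw [hT]
    have : (∑ j ∈ Finset.range t, wt (R (pre B j))) * 4 ^ (t + 1) * 2 ^ p.length =
        (S R B t * 2 ^ p.length) * 4 ^ (t + 1) := by
      unfold S
      ring
    rw [this]
    exact mul_le_mul_iff_left₀ h4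
  have e2 : bv p * 4 ^ (t + 1) < T R (pre B t) t * 2 ^ p.length + 4 ^ (t + 1) ↔
      (bv p : ℝ) < S R B t * 2 ^ p.length + 1 := by
    rw [← Nat.cast_lt (α := ℝ)]
    push_cast
    rw [hT]
    have : (∑ j ∈ Finset.range t, wt (R (pre B j))) * 4 ^ (t + 1) * 2 ^ p.length + 4 ^ (t + 1) =
        (S R B t * 2 ^ p.length + 1) * 4 ^ (t + 1) := by
      unfold S
      ring
    rw [this]
    exact mul_lt_mul_iff_left₀ h4
  unfold good
  rw [pre_length]
  rcases h : R (pre B t) with _ | x
  · simp
  · simp only [Option.isSome_some, Option.getD_some, Bool.true_and, Bool.and_eq_true,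
      decide_eq_true_eq, e1, e2]
    constructor
    · rintro ⟨h1, h2, h3⟩
      exact ⟨x, rfl, h1, h2, h3⟩
    · rintro ⟨y, hy, h1, h2, h3⟩
      obtain rfl := Option.some.inj hy
      exact ⟨h1, h2, h3⟩

theorem good_disj (hr : ∀ j x, R (pre B j) = some x → x.1 ≤ 2 * j + 4) {p q : List Bool}
    {t s : ℕ} (hp : good R p (pre B t) = true) (hq : good R q (pre B s) = true)
    (hpq : p <+: q) : t = s := by
  rw [good_iff hr] at hp hq
  obtain ⟨x, hx, hxl, hx1, hx2⟩ := hp
  obtain ⟨y, hy, hyl, hy1, hy2⟩ := hq
  obtain ⟨u, rfl⟩ := hpq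
  have hwx : wt (R (pre B t)) * 2 ^ p.length = 2 := by
    rw [hx, hxl]
    simp only [wt]
    rw [pow_succ, ← mul_assoc, ← mul_pow]
    norm_num
  have hwy : wt (R (pre B s)) * 2 ^ (p ++ u).length = 2 := by
    rw [hy, hyl]
    simp only [wt]
    rw [pow_succ, ← mul_assoc, ← mul_pow]
    norm_num
  have hv : (bv (p ++ u) : ℝ) = bv p * 2 ^ u.length + bv u := by
    rw [bv_append]
    push_cast
    ring
  have hu : (bv u : ℝ) < 2 ^ u.length := by
    exact_mod_cast bv_lt u
  have hu0 : (0 : ℝ) ≤ bv u := Nat.cast_nonneg _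
  have hl : (2 : ℝ) ^ (p ++ u).length = 2 ^ p.length * 2 ^ u.length := by
    rw [List.length_append, pow_add]
  have hup : (0 : ℝ) < 2 ^ u.length := by positivity
  have hpp : (0 : ℝ) < 2 ^ p.length := by positivity
  rw [hl] at hwy hy1 hy2
  rcases lt_trichotomy t s with h | h | h
  · exfalso
    have h1 := S_step (R := R) (B := B) h
    have h2 : S R B t * 2 ^ p.length + 2 ≤ S R B s * 2 ^ p.length := by
      have h5 := mul_le_mul_of_nonneg_right h1 hpp.le
      rwa [add_mul, hwx] at h5
    have h3 : (bv p : ℝ) + 1 < S R B s * 2 ^ p.length := by linarith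
    have h4 : ((bv p : ℝ) + 1) * 2 ^ u.length < S R B s * 2 ^ p.length * 2 ^ u.length :=
      mul_lt_mul_of_pos_right h3 hup
    rw [hv, ← mul_assoc] at hy1
    nlinarith
  · exact h
  · exfalso
    have h1 := S_step (R := R) (B := B) h
    have h2 : S R B s * (2 ^ p.length * 2 ^ u.length) + 2 ≤
        S R B t * (2 ^ p.length * 2 ^ u.length) := by
      have h5 := mul_le_mul_of_nonneg_right h1 (mul_pos hpp hup).le
      rwa [add_mul, hwy] at h5
    have h3 : S R B t * 2 ^ p.length * 2 ^ u.length ≤ bv p * 2 ^ u.length :=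
      mul_le_mul_of_nonneg_right hx1 hup.le
    rw [hv] at hy2
    nlinarith

theorem exists_good (hr : ∀ j x, R (pre B j) = some x → x.1 ≤ 2 * j + 4)
    (hsum : ∀ N, S R B N ≤ 1) {t : ℕ} {x : ℕ × ℕ} (hx : R (pre B t) = some x) :
    ∃ p : List Bool, p.length = x.1 + 1 ∧ good R p (pre B t) = true := by
  have h1 := (S_step (R := R) (B := B) (Nat.lt_succ_self t)).trans (hsum _)
  have h0 : 0 ≤ S R B t := Finset.sum_nonneg fun j _ => wt_nonneg _
  have hL : (0 : ℝ) < 2 ^ (x.1 + 1) := by positivity
  have hw : wt (R (pre B t)) * 2 ^ (x.1 + 1) = 2 := by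
    rw [hx]
    simp only [wt]
    rw [pow_succ, ← mul_assoc, ← mul_pow]
    norm_num
  have h2 : S R B t * 2 ^ (x.1 + 1) + 2 ≤ 2 ^ (x.1 + 1) := by
    have h5 := mul_le_mul_of_nonneg_right h1 hL.le
    rwa [add_mul, hw, one_mul] at h5
  have h3 : (⌈S R B t * 2 ^ (x.1 + 1)⌉₊ : ℝ) < S R B t * 2 ^ (x.1 + 1) + 1 :=
    Nat.ceil_lt_add_one (by positivity)
  have h4 : ⌈S R B t * 2 ^ (x.1 + 1)⌉₊ < 2 ^ (x.1 + 1) := by
    rw [← Nat.cast_lt (α := ℝ)]
    push_cast
    linarith
  obtain ⟨p, hp, hv⟩ := exists_bv _ _ h4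
  refine ⟨p, hp, (good_iff hr p t).2 ⟨x, hx, hp, ?_, ?_⟩⟩
  · rw [hp, hv]
    exact Nat.le_ceil _
  · rw [hp, hv]
    exact h3

/-- **Kraft-Chaitin**: requests of total weight at most one are answered by a machine. -/
theorem kraft_chaitin (hR : Computable R) (hr : ∀ j x, R (pre B j) = some x → x.1 ≤ 2 * j + 4)
    (hout : ∀ j x, R (pre B j) = some x → encode (dL x.2) = x.2) (hsum : ∀ N, S R B N ≤ 1) :
    ∃ M, Machine B M ∧ ∀ t x, R (pre B t) = some x → K M (dL x.2) ≤ ((x.1 + 1 : ℕ) : ℕ∞) := by
  have hP : Computable₂ fun (n : ℕ) (β : List Bool) =>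
      (decode n : Option (List Bool)).isSome && good R (dL n) β := by
    refine Primrec.and.to_comp.comp (Primrec.option_isSome.to_comp.comp
      (Computable.decode.comp Computable.fst)) ?_
    exact (good_comp hR).comp (dL_prim.to_comp.comp Computable.fst) Computable.snd
  obtain ⟨ψ, hψ, hmem⟩ := semi' (X := B) _ hP
  have hout1 : Tot B fun t => ((R (pre B t)).getD (0, 0)).2 := by
    have h1 : Computable fun e : ℕ => ((R (dL e)).getD (0, 0)).2 :=
      Computable.snd.comp (Computable.option_getD (hR.comp dL_prim.to_comp)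
        (Computable.const (0, 0)))
    have h2 := Tot.comp (Tot.of_computable (X := B) h1) (Tot.pre B)
    simpa only [dL_encode] using h2
  have hφ := Nat.RecursiveIn.comp hout1 hψ
  set φ : ℕ →. ℕ := fun n => ψ n >>= fun t => Part.some ((R (pre B t)).getD (0, 0)).2 with hφd
  have hφm : ∀ n y, y ∈ φ n ↔ ∃ t x, R (pre B t) = some x ∧ y = x.2 ∧
      (decode n : Option (List Bool)).isSome = true ∧ good R (dL n) (pre B t) = true := by
    intro n y
    rw [hφd]
    simp only [Part.bind_eq_bind, Part.mem_bind_iff, Part.mem_some_iff, hmem,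
      Bool.and_eq_true]
    constructor
    · rintro ⟨t, ⟨⟨h1, h2⟩, -⟩, h3⟩
      obtain ⟨x, hx, -⟩ := (good_iff hr _ _).1 h2
      rw [hx] at h3
      exact ⟨t, x, hx, h3, h1, h2⟩
    · rintro ⟨t, x, hx, hy, h1, h2⟩
      refine ⟨t, ⟨⟨h1, h2⟩, fun s hs => ?_⟩, by rw [hx]; exact hy⟩
      rw [h1, Bool.true_and]
      by_contra h3
      rw [Bool.not_eq_false] at h3
      have := good_disj hr h2 h3 (List.prefix_refl _)
      omega
  refine ⟨fun p => (φ (encode p)).map dL, ⟨?_, ?_⟩, ?_⟩
  · have h1 : (fun n => Part.bind ((decode (α := List Bool) n : Option (List Bool)) :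
        Part (List Bool)) fun a => ((φ (encode a)).map dL).map encode) = φ := by
      funext n
      ext y
      simp only [Part.mem_bind_iff, Part.mem_map_iff, Part.mem_ofOption, Option.mem_def]
      constructor
      · rintro ⟨a, ha, b, ⟨y', hy', rfl⟩, rfl⟩
        rw [hφm] at hy' ⊢
        obtain ⟨t, x, hx, rfl, -, h2⟩ := hy'
        refine ⟨t, x, hx, hout t x hx, by rw [ha]; rfl, ?_⟩
        rw [dL_encode] at h2
        have : dL n = a := by
          unfold dL
          rw [ha]
          rfl
        rw [this]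
        exact h2
      · intro hy
        have hy2 := hy
        rw [hφm] at hy
        obtain ⟨t, x, hx, rfl, h1, h2⟩ := hy
        obtain ⟨a, ha⟩ := Option.isSome_iff_exists.1 h1
        have hda : dL n = a := by
          unfold dL
          rw [ha]
          rfl
        refine ⟨a, ha, dL x.2, ⟨x.2, ?_, rfl⟩, hout t x hx⟩
        rw [hφm]
        refine ⟨t, x, hx, rfl, by rw [encodek]; rfl, ?_⟩
        rw [dL_encode, ← hda]
        exact h2
    unfold RecursiveIn
    rw [h1]
    exact hφ
  · intro p q hp hq hpq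
    have hp1 := Part.dom_iff_mem.1 hp
    have hq1 := Part.dom_iff_mem.1 hq
    obtain ⟨_, hp2⟩ := hp1
    obtain ⟨_, hq2⟩ := hq1
    rw [Part.mem_map_iff] at hp2 hq2
    obtain ⟨y, hy, -⟩ := hp2
    obtain ⟨z, hz, -⟩ := hq2
    rw [hφm] at hy hz
    obtain ⟨t, x, hx, -, -, h1⟩ := hy
    obtain ⟨s, x', hx', -, -, h2⟩ := hz
    rw [dL_encode] at h1 h2
    have hts := good_disj hr h1 h2 hpq
    subst hts
    rw [hx] at hx'
    obtain rfl := Option.some.inj hx'
    obtain ⟨x1, hx1, hl1, -⟩ := (good_iff hr _ _).1 h1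
    obtain ⟨x2, hx2, hl2, -⟩ := (good_iff hr _ _).1 h2
    rw [hx] at hx1 hx2
    obtain rfl := Option.some.inj hx1
    obtain rfl := Option.some.inj hx2
    exact hpq.eq_of_length (hl1.trans hl2.symm)
  · intro t x hx
    obtain ⟨p, hp, hg⟩ := exists_good hr hsum hx
    rw [← hp]
    refine K_le ?_
    rw [Part.mem_map_iff]
    refine ⟨x.2, ?_, rfl⟩
    rw [hφm]
    exact ⟨t, x, hx, rfl, by rw [encodek]; rfl, by rw [dL_encode]; exact hg⟩

end kc

end Pool.Agent.Helper13.BK
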