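import Pool.Agent.Helper13.BK.Tr
import Pool.Agent.Helper31.AC.DecPreds

/-!
# MP_29fd35_lc: optimal prefix-free machines relative to an oracle
-/

set_option autoImplicit false

namespace Pool.Agent.Helper13.BK

open Nat.Partrec (Code)
open Denumerable Encodable
open Pool.Agent.Helper7.AC (pre chi Tot dL dL_encode dL_prim semi halt V vDec)
open Pool.Agent.Helper3.AC (pre_length pre_take pre_prefix Rep exists_rep nf)

/-- code, program and output of an item -/
def ie (q : ℕ) : ℕ := (Nat.unpair q).1
def ia (q : ℕ) : ℕ := (Nat.unpair (Nat.unpair q).2).1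
def iy (q : ℕ) : ℕ := (Nat.unpair (Nat.unpair q).2).2

/-- the item of a stage, and the length of its program -/
def iq (t : ℕ) : ℕ := (Nat.unpair t).1
def la (t : ℕ) : ℕ := (dL (ia (iq t))).length

theorem ie_comp : Computable ie := Computable.fst.comp Computable.unpair
theorem ia_comp : Computable ia :=
  Computable.fst.comp (Computable.unpair.comp (Computable.snd.comp Computable.unpair))
theorem iy_comp : Computable iy :=
  Computable.snd.comp (Computable.unpair.comp (Computable.snd.comp Computable.unpair))
theorem iq_comp : Computable iq := Computable.fst.comp Computable.unpair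
theorem la_comp : Computable la :=
  Computable.list_length.comp (dL_prim.to_comp.comp (ia_comp.comp iq_comp))

/-- scaled weight of the items with code `e` before stage `i` -/
def Z (D : List Bool → ℕ → Bool) (e : ℕ) (β : List Bool) (i : ℕ) : ℕ :=
  Nat.rec 0 (fun j z => 2 * z + cond (newt D (β.take j) && decide (ie (iq j) = e))
    (2 ^ (j + 1 - la j)) 0) i

/-- the item is new and there is enough budget -/
def acc (D : List Bool → ℕ → Bool) (β : List Bool) : Bool :=
  newt D β && decide (Z D (ie (iq β.length)) β β.length + 2 ^ (β.length - la β.length) ≤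
    2 ^ β.length)

/-- the requests -/
def RU (D : List Bool → ℕ → Bool) (β : List Bool) : Option (ℕ × ℕ) :=
  cond (acc D β) (some (la β.length + ie (iq β.length) + 2, iy (iq β.length))) none

theorem RU_comp {D : List Bool → ℕ → Bool} (hD : Computable₂ D) : Computable (RU D) := by
  have hlen : Computable fun β : List Bool => β.length := Computable.list_length
  have hle : Computable₂ fun a b : ℕ => decide (a ≤ b) := (PrimrecRel.decide Primrec.nat_le).to_comp
  have heq : Computable₂ fun a b : ℕ => decide (a = b) := (PrimrecRel.decide Primrec.eq).to_comp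
  have hand : Computable₂ (fun a b : Bool => a && b) := Primrec.and.to_comp
  have hadd : Computable₂ (fun a b : ℕ => a + b) := Primrec.nat_add.to_comp
  have hsub : Computable₂ (fun a b : ℕ => a - b) := Primrec.nat_sub.to_comp
  have hmul : Computable₂ (fun a b : ℕ => a * b) := Primrec.nat_mul.to_comp
  have hpow : Computable₂ (fun a b : ℕ => a ^ b) := pow_prim.to_comp
  have hZ : Computable fun β : List Bool => Z D (ie (iq β.length)) β β.length := by
    refine Computable.nat_rec (f := fun β : List Bool => β.length) (g := fun _ => 0)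
      (h := fun (β : List Bool) (p : ℕ × ℕ) => 2 * p.2 + cond (newt D (β.take p.1) &&
        decide (ie (iq p.1) = ie (iq β.length))) (2 ^ (p.1 + 1 - la p.1)) 0) hlen
      (Computable.const 0) ?_
    have hj : Computable fun q : List Bool × (ℕ × ℕ) => q.2.1 :=
      Computable.fst.comp Computable.snd
    refine hadd.comp (hmul.comp (Computable.const 2) (Computable.snd.comp Computable.snd)) ?_
    refine Computable.cond (hand.comp ((newt_comp hD).comp
      (Primrec.list_take.to_comp.comp hj Computable.fst)) ?_) ?_ (Computable.const 0)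
    · exact heq.comp (ie_comp.comp (iq_comp.comp hj))
        (ie_comp.comp (iq_comp.comp (hlen.comp Computable.fst)))
    · exact hpow.comp (Computable.const 2) (hsub.comp (Computable.succ.comp hj)
        (la_comp.comp hj))
  have hacc : Computable (acc D) :=
    hand.comp (newt_comp hD) (hle.comp (hadd.comp hZ (hpow.comp (Computable.const 2)
      (hsub.comp hlen (la_comp.comp hlen)))) (hpow.comp (Computable.const 2) hlen))
  exact Computable.cond hacc (Computable.option_some.comp (Computable.pair
    (hadd.comp (hadd.comp (la_comp.comp hlen) (ie_comp.comp (iq_comp.comp hlen)))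
      (Computable.const 2)) (iy_comp.comp (iq_comp.comp hlen)))) (Computable.const none)

section

variable {B : ℕ → Bool} {D : List Bool → ℕ → Bool}

/-- weight of the items with code `e` before stage `i` -/
noncomputable def Zr (D : List Bool → ℕ → Bool) (B : ℕ → Bool) (e i : ℕ) : ℝ :=
  ∑ j ∈ Finset.range i, if newt D (pre B j) = true ∧ ie (iq j) = e then (1 / 2 : ℝ) ^ la j else 0

theorem Z_eq (hl : ∀ j, newt D (pre B j) = true → la j + ie (iq j) + 2 ≤ j) (e N i : ℕ)
    (hi : i ≤ N) : (Z D e (pre B N) i : ℝ) = Zr D B e i * 2 ^ i := by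
  induction i with
  | zero => simp [Z, Zr]
  | succ i ih =>
    have h1 : Z D e (pre B N) (i + 1) = 2 * Z D e (pre B N) i +
        cond (newt D ((pre B N).take i) && decide (ie (iq i) = e)) (2 ^ (i + 1 - la i)) 0 := rfl
    rw [h1, pre_take B (by omega : i ≤ N)]
    push_cast
    rw [ih (by omega)]
    unfold Zr
    rw [Finset.sum_range_succ]
    by_cases h : newt D (pre B i) = true ∧ ie (iq i) = e
    · have h2 := hl i h.1
      rw [if_pos h, h.1, h.2]
      simp only [decide_true, Bool.and_true, cond_true]
      push_cast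
      have h3 : (2 : ℝ) ^ (i + 1) = 2 ^ la i * 2 ^ (i + 1 - la i) := by
        rw [← pow_add, Nat.add_sub_cancel' (by omega)]
      have h4 : (1 / 2 : ℝ) ^ la i * 2 ^ (i + 1) = 2 ^ (i + 1 - la i) := by
        rw [h3, ← mul_assoc, ← mul_pow]
        norm_num
      rw [add_mul, h4, pow_succ]
      ring
    · rw [if_neg h]
      have h2 : (newt D (pre B i) && decide (ie (iq i) = e)) = false := by
        rw [Bool.and_eq_false_iff]
        by_cases h3 : newt D (pre B i) = true
        · right
          simpa using fun h4 => h ⟨h3, h4⟩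
        · left
          simpa using h3
      rw [h2]
      simp only [cond_false, Nat.cast_zero, add_zero]
      rw [pow_succ]
      ring

theorem acc_iff (hl : ∀ j, newt D (pre B j) = true → la j + ie (iq j) + 2 ≤ j) (t : ℕ) :
    acc D (pre B t) = true ↔ newt D (pre B t) = true ∧
      Zr D B (ie (iq t)) t + (1 / 2 : ℝ) ^ la t ≤ 1 := by
  unfold acc
  rw [pre_length, Bool.and_eq_true, decide_eq_true_eq]
  refine and_congr_right fun h => ?_
  have h1 := hl t h
  have h2 : (1 / 2 : ℝ) ^ la t * 2 ^ t = 2 ^ (t - la t) := by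
    have h3 : (2 : ℝ) ^ t = 2 ^ la t * 2 ^ (t - la t) := by
      rw [← pow_add, Nat.add_sub_cancel' (by omega)]
    rw [h3, ← mul_assoc, ← mul_pow]
    norm_num
  rw [← Nat.cast_le (α := ℝ)]
  push_cast
  rw [Z_eq hl _ t t le_rfl, ← h2, ← add_mul]
  have h4 : (0 : ℝ) < 2 ^ t := by positivity
  constructor
  · intro h5
    by_contra h6
    push Not at h6
    nlinarith
  · intro h5
    nlinarith

theorem RU_iff (t : ℕ) (x : ℕ × ℕ) : RU D (pre B t) = some x ↔
    acc D (pre B t) = true ∧ x = (la t + ie (iq t) + 2, iy (iq t)) := by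
  unfold RU
  rw [pre_length]
  cases acc D (pre B t) with
  | false => simp
  | true =>
    simp only [cond_true, Option.some.injEq, true_and]
    exact eq_comm

/-- accepted weight for the code `e` -/
noncomputable def Ac (D : List Bool → ℕ → Bool) (B : ℕ → Bool) (e i : ℕ) : ℝ :=
  ∑ j ∈ Finset.range i, if acc D (pre B j) = true ∧ ie (iq j) = e then (1 / 2 : ℝ) ^ la j else 0

theorem Ac_le (hl : ∀ j, newt D (pre B j) = true → la j + ie (iq j) + 2 ≤ j) (e i : ℕ) :
    Ac D B e i ≤ 1 ∧ Ac D B e i ≤ Zr D B e i := by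
  induction i with
  | zero => simp [Ac, Zr]
  | succ i ih =>
    unfold Ac Zr at ih ⊢
    rw [Finset.sum_range_succ, Finset.sum_range_succ]
    have hpos : (0 : ℝ) ≤ (1 / 2 : ℝ) ^ la i := by positivity
    by_cases h : acc D (pre B i) = true ∧ ie (iq i) = e
    · have h1 := (acc_iff hl i).1 h.1
      rw [h.2] at h1
      unfold Zr at h1
      rw [if_pos h, if_pos ⟨h1.1, h.2⟩]
      constructor
      · linarith [ih.2, h1.2]
      · linarith [ih.2]
    · rw [if_neg h, add_zero]
      refine ⟨ih.1, ?_⟩
      split_ifs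
      · linarith [ih.2]
      · linarith [ih.2]

theorem SU_le (hl : ∀ j, newt D (pre B j) = true → la j + ie (iq j) + 2 ≤ j) (N : ℕ) :
    S (RU D) B N ≤ 1 := by
  have h1 : S (RU D) B N = ∑ e ∈ Finset.range N, (1 / 2 : ℝ) ^ (e + 2) * Ac D B e N := by
    unfold S Ac
    simp only [Finset.mul_sum]
    rw [Finset.sum_comm]
    refine Finset.sum_congr rfl fun j hj => ?_
    rcases h0 : RU D (pre B j) with _ | x
    · have h2 : ¬ acc D (pre B j) = true := fun h => by
        rw [(RU_iff j _).2 ⟨h, rfl⟩] at h0
        exact Option.some_ne_none _ h0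
      simp [wt, h2]
    · obtain ⟨h2, rfl⟩ := (RU_iff j x).1 h0
      have h3 := hl j ((acc_iff hl j).1 h2).1
      rw [Finset.sum_eq_single (ie (iq j))]
      · rw [if_pos ⟨h2, rfl⟩]
        simp only [wt]
        rw [← pow_add]
        congr 1
        ring
      · intro b _ hb
        rw [if_neg (fun h => hb h.2.symm), mul_zero]
      · intro h
        exfalso
        apply h
        rw [Finset.mem_range] at hj ⊢
        omega
  rw [h1]
  calc ∑ e ∈ Finset.range N, (1 / 2 : ℝ) ^ (e + 2) * Ac D B e N ≤
        ∑ e ∈ Finset.range N, (1 / 2 : ℝ) ^ (e + 1) := by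
        refine Finset.sum_le_sum fun e _ => ?_
        have h2 := (Ac_le hl e N).1
        have h3 : (0 : ℝ) < (1 / 2 : ℝ) ^ (e + 1) := by positivity
        rw [pow_succ _ (e + 1)]
        nlinarith
    _ ≤ 1 := by
        have h2 := geom 0 N
        simpa using h2

end

/-- **There is an optimal machine relative to `B`.** -/
theorem exists_optimal (B : ℕ → Bool) : ∃ U, Machine B U ∧ ∀ M, Machine B M →
    ∃ c : ℕ, ∀ x, K U x ≤ K M x + c := by
  classical
  obtain ⟨FV, hFV, hFVs⟩ := vDec
  set D : List Bool → ℕ → Bool := fun β q => FV (ie q) β (ia q) (iy q) &&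
    (decide ((dL (ia q)).length + ie q + 2 ≤ β.length) &&
      (decide (encode (dL (ia q)) = ia q) && decide (encode (dL (iy q)) = iy q))) with hDd
  have hD : Computable₂ D := by
    have hle : Computable₂ fun a b : ℕ => decide (a ≤ b) :=
      (PrimrecRel.decide Primrec.nat_le).to_comp
    have heq : Computable₂ fun a b : ℕ => decide (a = b) :=
      (PrimrecRel.decide Primrec.eq).to_comp
    have hand : Computable₂ (fun a b : Bool => a && b) := Primrec.and.to_comp
    have hadd : Computable₂ (fun a b : ℕ => a + b) := Primrec.nat_add.to_comp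
    have he : Computable fun q : List Bool × ℕ => ie q.2 := ie_comp.comp Computable.snd
    have ha : Computable fun q : List Bool × ℕ => ia q.2 := ia_comp.comp Computable.snd
    have hy : Computable fun q : List Bool × ℕ => iy q.2 := iy_comp.comp Computable.snd
    have h1 : Computable fun q : List Bool × ℕ => FV (ie q.2) q.1 (ia q.2) (iy q.2) :=
      hFV.to_comp.comp (Computable.pair he (Computable.pair Computable.fst
        (Computable.pair ha hy)))
    exact hand.comp h1 (hand.comp (hle.comp (hadd.comp (hadd.comp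
      (Computable.list_length.comp (dL_prim.to_comp.comp ha)) he) (Computable.const 2))
      (Computable.list_length.comp Computable.fst)) (hand.comp
        (heq.comp (Computable.encode.comp (dL_prim.to_comp.comp ha)) ha)
        (heq.comp (Computable.encode.comp (dL_prim.to_comp.comp hy)) hy)))
  have hDs : ∀ j q, D (pre B j) q = true ↔ V (ofNat Code (ie q)) (pre B j) (ia q) (iy q) ∧
      (dL (ia q)).length + ie q + 2 ≤ j ∧ encode (dL (ia q)) = ia q ∧
      encode (dL (iy q)) = iy q := by
    intro j q
    simp only [hDd, Bool.and_eq_true, decide_eq_true_eq, pre_length, hFVs]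
  have hmono : ∀ i j q, i ≤ j → D (pre B i) q = true → D (pre B j) q = true := by
    intro i j q hij h
    rw [hDs] at h ⊢
    exact ⟨Pool.Agent.Helper7.AC.V_mono (pre_prefix B hij) h.1, h.2.1.trans hij, h.2.2⟩
  have hl : ∀ j, newt D (pre B j) = true → la j + ie (iq j) + 2 ≤ j := by
    intro j h
    rw [newt_iff] at h
    have h1 := ((hDs _ _).1 h.1).2.1
    exact h1.trans (Nat.unpair_right_le j)
  have hr : ∀ j x, RU D (pre B j) = some x → x.1 ≤ 2 * j + 4 := by
    intro j x hx
    obtain ⟨h1, rfl⟩ := (RU_iff j x).1 hx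
    have h2 := hl j ((acc_iff hl j).1 h1).1
    show la j + ie (iq j) + 2 ≤ _
    omega
  have hout : ∀ j x, RU D (pre B j) = some x → encode (dL x.2) = x.2 := by
    intro j x hx
    obtain ⟨h1, rfl⟩ := (RU_iff j x).1 hx
    have h2 := ((acc_iff hl j).1 h1).1
    rw [newt_iff] at h2
    exact ((hDs _ _).1 h2.1).2.2.2
  obtain ⟨U, hU, hK⟩ := kraft_chaitin (RU_comp hD) hr hout (SU_le hl)
  refine ⟨U, hU, fun M hM => ?_⟩
  obtain ⟨c, hc⟩ := nf hM.comp
  have hspec : ∀ (p y : List Bool), y ∈ M p ↔ ∃ k, V c (pre B k) (encode p) (encode y) := by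
    intro p y
    rw [← hc]
    simp only [encodek, Part.coe_some, Part.bind_some, Part.mem_map_iff]
    constructor
    · intro h
      exact ⟨y, h, rfl⟩
    · rintro ⟨z, hz, hzy⟩
      rwa [← encode_injective hzy]
  -- the new items with the code of `M`
  have hnew : ∀ t, newt D (pre B t) = true → ie (iq t) = encode c →
      dL (iy (iq t)) ∈ M (dL (ia (iq t))) ∧ encode (dL (ia (iq t))) = ia (iq t) ∧
      encode (dL (iy (iq t))) = iy (iq t) := by
    intro t ht he
    rw [newt_iff] at ht
    obtain ⟨h1, -, h3, h4⟩ := (hDs _ _).1 ht.1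
    refine ⟨?_, h3, h4⟩
    rw [hspec]
    refine ⟨(Nat.unpair t).2, ?_⟩
    have h5 : ie (Nat.unpair t).1 = encode c := he
    rw [h5, ofNat_encode] at h1
    show V c (pre B (Nat.unpair t).2) (encode (dL (ia (Nat.unpair t).1)))
      (encode (dL (iy (Nat.unpair t).1)))
    rw [h3, h4]
    exact h1
  have hZ : ∀ N, Zr D B (encode c) N ≤ 1 := by
    intro N
    set fl := (Finset.range N).filter fun t => newt D (pre B t) = true ∧ ie (iq t) = encode c
      with hfl
    have h1 : Zr D B (encode c) N = ∑ t ∈ fl, (1 / 2 : ℝ) ^ la t := by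
      unfold Zr
      rw [hfl, Finset.sum_filter]
    have hinj : Set.InjOn (fun t => dL (ia (iq t))) fl := by
      intro t ht s hs hts
      rw [hfl, Finset.mem_coe, Finset.mem_filter] at ht hs
      obtain ⟨a1, a2, a3⟩ := hnew t ht.2.1 ht.2.2
      obtain ⟨b1, b2, b3⟩ := hnew s hs.2.1 hs.2.2
      have hts' : dL (ia (iq t)) = dL (ia (iq s)) := hts
      rw [← hts'] at b1
      have h2 : dL (iy (iq t)) = dL (iy (iq s)) := Part.mem_unique a1 b1
      have h3 : ia (iq t) = ia (iq s) := by rw [← a2, ← b2, hts']
      have h4 : iy (iq t) = iy (iq s) := by rw [← a3, ← b3, h2]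
      refine newt_unique hmono ht.2.1 hs.2.1 ?_
      have h5 : ∀ q, q = Nat.pair (ie q) (Nat.pair (ia q) (iy q)) := fun q => by
        unfold ie ia iy
        rw [Nat.pair_unpair, Nat.pair_unpair]
      show iq t = iq s
      rw [h5 (iq t), h5 (iq s), ht.2.2, hs.2.2, h3, h4]
    have h2 : ∑ t ∈ fl, (1 / 2 : ℝ) ^ la t =
        ∑ p ∈ fl.image (fun t => dL (ia (iq t))), (1 / 2 : ℝ) ^ p.length := by
      rw [Finset.sum_image hinj]
      rfl
    rw [h1, h2]
    refine kraft _ ?_
    intro p hp q hq hpq
    rw [Finset.mem_image] at hp hq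
    obtain ⟨t, ht, rfl⟩ := hp
    obtain ⟨s, hs, rfl⟩ := hq
    rw [hfl, Finset.mem_filter] at ht hs
    exact hM.pf _ _ (Part.dom_iff_mem.2 ⟨_, (hnew t ht.2.1 ht.2.2).1⟩)
      (Part.dom_iff_mem.2 ⟨_, (hnew s hs.2.1 hs.2.2).1⟩) hpq
  refine ⟨encode c + 3, fun x => ?_⟩
  have h : K U x - ((encode c + 3 : ℕ) : ℕ∞) ≤ K M x := by
    refine le_K fun p hp => ?_
    rw [tsub_le_iff_right]
    obtain ⟨k, hk⟩ := (hspec p x).1 hp
    set q := Nat.pair (encode c) (Nat.pair (encode p) (encode x)) with hq
    have q1 : ie q = encode c := by simp [hq, ie]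
    have q2 : ia q = encode p := by simp [hq, ia]
    have q3 : iy q = encode x := by simp [hq, iy]
    have hex : ∃ j, D (pre B j) q = true := by
      refine ⟨max k (p.length + encode c + 2), ?_⟩
      rw [hDs, q1, q2, q3, ofNat_encode, dL_encode, dL_encode]
      exact ⟨Pool.Agent.Helper7.AC.V_mono (pre_prefix B (le_max_left _ _)) hk,
        le_max_right _ _, rfl, rfl⟩
    obtain ⟨t, ht, htq⟩ := exists_newt hex
    have htq' : iq t = q := htq
    have hat : acc D (pre B t) = true := by
      rw [acc_iff hl]
      refine ⟨ht, ?_⟩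
      have h1 := hZ (t + 1)
      unfold Zr at h1
      rw [Finset.sum_range_succ, if_pos ⟨ht, by rw [htq', q1]⟩] at h1
      rw [htq', q1]
      exact h1
    have h1 := hK t _ ((RU_iff t _).2 ⟨hat, rfl⟩)
    simp only [htq', q1, q3, dL_encode] at h1
    have h2 : la t = p.length := by
      unfold la
      rw [htq', q2, dL_encode]
    rw [h2] at h1
    refine h1.trans (le_of_eq ?_)
    push_cast
    ring
  rwa [tsub_le_iff_right] at h

end Pool.Agent.Helper13.BK
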