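import Pool.Agent.Helper13.BK.KC
import Pool.Agent.Helper7.AC.Final
import Mathlib.InformationTheory.Coding.KraftMcMillan

/-!
# MP_29fd35_lc: from information content measures to prefix-free machines and back
-/

set_option autoImplicit false

namespace Pool.Agent.Helper13.BK

open Nat.Partrec (Code)
open Denumerable Encodable
open Pool.Agent.Helper7.AC (pre chi Tot dL dL_encode dL_prim semi halt)
open Pool.Agent.Helper3.AC (pre_length pre_take pre_prefix Rep exists_rep)

/-! ### Items which are enumerated -/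

/-- The item `(unpair t).1`, `t = |β|`, is enumerated exactly at the stage `(unpair t).2`. -/
def newt (D : List Bool → ℕ → Bool) (β : List Bool) : Bool :=
  D (β.take (Nat.unpair β.length).2) (Nat.unpair β.length).1 &&
    (decide ((Nat.unpair β.length).2 = 0) ||
      !D (β.take ((Nat.unpair β.length).2 - 1)) (Nat.unpair β.length).1)

theorem newt_comp {D : List Bool → ℕ → Bool} (hD : Computable₂ D) : Computable (newt D) := by
  have hq : Computable fun β : List Bool => (Nat.unpair β.length).1 :=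
    Computable.fst.comp (Computable.unpair.comp Computable.list_length)
  have hj : Computable fun β : List Bool => (Nat.unpair β.length).2 :=
    Computable.snd.comp (Computable.unpair.comp Computable.list_length)
  have hj1 : Computable fun β : List Bool => (Nat.unpair β.length).2 - 1 :=
    Primrec.nat_sub.to_comp.comp hj (Computable.const 1)
  have heq : Computable₂ fun a b : ℕ => decide (a = b) := (PrimrecRel.decide Primrec.eq).to_comp
  exact Primrec.and.to_comp.comp
    (hD.comp (Primrec.list_take.to_comp.comp hj Computable.id) hq)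
    (Primrec.or.to_comp.comp (heq.comp hj (Computable.const 0))
      (Primrec.not.to_comp.comp (hD.comp (Primrec.list_take.to_comp.comp hj1 Computable.id) hq)))

section newt

variable {B : ℕ → Bool} {D : List Bool → ℕ → Bool}

theorem newt_iff (t : ℕ) : newt D (pre B t) = true ↔
    D (pre B (Nat.unpair t).2) (Nat.unpair t).1 = true ∧ ((Nat.unpair t).2 = 0 ∨
      D (pre B ((Nat.unpair t).2 - 1)) (Nat.unpair t).1 = false) := by
  have h1 : (Nat.unpair t).2 ≤ t := Nat.unpair_right_le t
  unfold newt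
  rw [pre_length, pre_take B h1, pre_take B (by omega : (Nat.unpair t).2 - 1 ≤ t)]
  simp

theorem newt_unique (hmono : ∀ i j q, i ≤ j → D (pre B i) q = true → D (pre B j) q = true)
    {t s : ℕ} (ht : newt D (pre B t) = true) (hs : newt D (pre B s) = true)
    (h : (Nat.unpair t).1 = (Nat.unpair s).1) : t = s := by
  rw [newt_iff] at ht hs
  have key : ∀ a b : ℕ, D (pre B (Nat.unpair a).2) (Nat.unpair a).1 = true →
      ((Nat.unpair b).2 = 0 ∨ D (pre B ((Nat.unpair b).2 - 1)) (Nat.unpair b).1 = false) →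
      (Nat.unpair a).1 = (Nat.unpair b).1 → ¬ (Nat.unpair a).2 < (Nat.unpair b).2 := by
    intro a b h1 h2 h3 h4
    rcases h2 with h2 | h2
    · omega
    · have := hmono _ ((Nat.unpair b).2 - 1) _ (by omega) h1
      rw [h3, h2] at this
      exact Bool.false_ne_true this
  have h1 := key t s ht.1 hs.2 h
  have h2 := key s t hs.1 ht.2 h.symm
  have h3 : (Nat.unpair t).2 = (Nat.unpair s).2 := by omega
  rw [← Nat.pair_unpair t, ← Nat.pair_unpair s, h, h3]

theorem exists_newt {q : ℕ} (hq : ∃ j, D (pre B j) q = true) :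
    ∃ t, newt D (pre B t) = true ∧ (Nat.unpair t).1 = q := by
  classical
  refine ⟨Nat.pair q (Nat.find hq), ?_, by simp⟩
  rw [newt_iff]
  simp only [Nat.unpair_pair]
  refine ⟨Nat.find_spec hq, ?_⟩
  rcases Nat.eq_zero_or_pos (Nat.find hq) with h | h
  · exact Or.inl h
  · right
    have := Nat.find_min hq (m := Nat.find hq - 1) (by omega)
    simpa using this

end newt

/-! ### From measures to machines -/

theorem geom (a K : ℕ) :
    ∑ k ∈ Finset.range K, (if a ≤ k then (1 / 2 : ℝ) ^ (k + 1) else 0) ≤ (1 / 2 : ℝ) ^ a := by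
  have h : ∀ K : ℕ, ∑ k ∈ Finset.range K, (if a ≤ k then (1 / 2 : ℝ) ^ (k + 1) else 0) +
      (1 / 2 : ℝ) ^ (max a K) ≤ (1 / 2 : ℝ) ^ a := by
    intro K
    induction K with
    | zero => simp
    | succ K ih =>
      rw [Finset.sum_range_succ]
      split_ifs with h
      · rw [max_eq_right h] at ih
        rw [max_eq_right (by omega)]
        have : (1 / 2 : ℝ) ^ K = 2 * (1 / 2 : ℝ) ^ (K + 1) := by
          rw [pow_succ]
          ring
        linarith
      · rw [max_eq_left (by omega)] at ih ⊢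
        linarith
  have := h K
  have h2 : (0 : ℝ) ≤ (1 / 2 : ℝ) ^ (max a K) := by positivity
  linarith

/-- A measure which is semicomputable in `B` gives a machine. -/
theorem machine_of_measure {B : ℕ → Bool} (h : List Bool → ℕ)
    (hψ : ∃ ψ : ℕ →. ℕ, Nat.RecursiveIn {chi B} ψ ∧
      ∀ σ : List Bool, ∀ k : ℕ, (ψ (Nat.pair (encode σ) k)).Dom ↔ h σ ≤ k)
    (hs : ∀ s : Finset (List Bool), ∑ σ ∈ s, (1 / 2 : ℝ) ^ (h σ) ≤ 1) :
    ∃ M, Machine B M ∧ ∀ σ, K M σ ≤ ((h σ + 2 : ℕ) : ℕ∞) := by
  classical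
  obtain ⟨ψ, hψ, hdom⟩ := hψ
  obtain ⟨F, hF⟩ := exists_rep hψ
  set D : List Bool → ℕ → Bool := fun β q => (F β q).isSome &&
    (decide ((Nat.unpair q).2 ≤ β.length) && decide (encode (dL (Nat.unpair q).1) =
      (Nat.unpair q).1)) with hDd
  have hD : Computable₂ D := by
    have h1 : Computable fun p : List Bool × ℕ => (Nat.unpair p.2).1 :=
      Computable.fst.comp (Computable.unpair.comp Computable.snd)
    have h2 : Computable fun p : List Bool × ℕ => (Nat.unpair p.2).2 :=
      Computable.snd.comp (Computable.unpair.comp Computable.snd)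
    have hle : Computable₂ fun a b : ℕ => decide (a ≤ b) :=
      (PrimrecRel.decide Primrec.nat_le).to_comp
    have heq : Computable₂ fun a b : ℕ => decide (a = b) :=
      (PrimrecRel.decide Primrec.eq).to_comp
    exact Primrec.and.to_comp.comp (Primrec.option_isSome.to_comp.comp hF.comp)
      (Primrec.and.to_comp.comp (hle.comp h2 (Computable.list_length.comp Computable.fst))
        (heq.comp (Computable.encode.comp (dL_prim.to_comp.comp h1)) h1))
  have hmono : ∀ i j q, i ≤ j → D (pre B i) q = true → D (pre B j) q = true := by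
    intro i j q hij h1
    simp only [hDd, Bool.and_eq_true, decide_eq_true_eq, pre_length] at h1 ⊢
    obtain ⟨h1, h2, h3⟩ := h1
    obtain ⟨m, hm⟩ := Option.isSome_iff_exists.1 h1
    exact ⟨by rw [hF.lift hij hm]; rfl, by omega, h3⟩
  set R : List Bool → Option (ℕ × ℕ) := fun β => cond (newt D β)
    (some ((Nat.unpair (Nat.unpair β.length).1).2 + 1, (Nat.unpair (Nat.unpair β.length).1).1))
    none with hRd
  have hR : Computable R := by
    have hq : Computable fun β : List Bool => Nat.unpair (Nat.unpair β.length).1 :=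
      Computable.unpair.comp (Computable.fst.comp (Computable.unpair.comp Computable.list_length))
    exact Computable.cond (newt_comp hD) (Computable.option_some.comp (Computable.pair
      (Computable.succ.comp (Computable.snd.comp hq)) (Computable.fst.comp hq)))
      (Computable.const none)
  have hRs : ∀ t x, R (pre B t) = some x ↔ newt D (pre B t) = true ∧
      x = ((Nat.unpair (Nat.unpair t).1).2 + 1, (Nat.unpair (Nat.unpair t).1).1) := by
    intro t x
    simp only [hRd, pre_length]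
    cases newt D (pre B t) with
    | false => simp
    | true =>
      simp only [cond_true, Option.some.injEq, true_and]
      exact eq_comm
  have hit : ∀ t, newt D (pre B t) = true →
      encode (dL (Nat.unpair (Nat.unpair t).1).1) = (Nat.unpair (Nat.unpair t).1).1 ∧
      h (dL (Nat.unpair (Nat.unpair t).1).1) ≤ (Nat.unpair (Nat.unpair t).1).2 := by
    intro t ht
    rw [newt_iff] at ht
    have h1 := ht.1
    simp only [hDd, Bool.and_eq_true, decide_eq_true_eq] at h1
    obtain ⟨h1, -, h3⟩ := h1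
    refine ⟨h3, ?_⟩
    rw [← hdom, h3, Nat.pair_unpair, Part.dom_iff_mem]
    obtain ⟨m, hm⟩ := Option.isSome_iff_exists.1 h1
    exact ⟨m, (hF.spec _ _).2 ⟨_, hm⟩⟩
  have hr : ∀ j x, R (pre B j) = some x → x.1 ≤ 2 * j + 4 := by
    intro j x hx
    obtain ⟨-, rfl⟩ := (hRs j x).1 hx
    have h1 := Nat.unpair_right_le (Nat.unpair j).1
    have h2 := Nat.unpair_left_le j
    show (Nat.unpair (Nat.unpair j).1).2 + 1 ≤ _
    omega
  have hout : ∀ j x, R (pre B j) = some x → encode (dL x.2) = x.2 := by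
    intro j x hx
    obtain ⟨h1, rfl⟩ := (hRs j x).1 hx
    exact (hit j h1).1
  have hsum : ∀ N, S R B N ≤ 1 := by
    intro N
    set g : ℕ → List Bool × ℕ := fun t =>
      (dL (Nat.unpair (Nat.unpair t).1).1, (Nat.unpair (Nat.unpair t).1).2) with hg
    set fl := (Finset.range N).filter fun t => newt D (pre B t) = true with hfl
    have h1 : S R B N = ∑ t ∈ fl, (1 / 2 : ℝ) ^ ((g t).2 + 1) := by
      unfold S
      rw [hfl, Finset.sum_filter]
      refine Finset.sum_congr rfl fun t _ => ?_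
      split_ifs with ht
      · rw [(hRs t _).2 ⟨ht, rfl⟩]
        rfl
      · have : R (pre B t) = none := by
          rcases h0 : R (pre B t) with _ | x
          · rfl
          · exact absurd ((hRs t x).1 h0).1 ht
        rw [this]
        rfl
    have hinj : Set.InjOn g fl := by
      intro t ht s hs hts
      rw [hfl, Finset.mem_coe, Finset.mem_filter] at ht hs
      simp only [hg, Prod.mk.injEq] at hts
      refine newt_unique hmono ht.2 hs.2 ?_
      rw [← Nat.pair_unpair (Nat.unpair t).1, ← Nat.pair_unpair (Nat.unpair s).1,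
        ← (hit t ht.2).1, ← (hit s hs.2).1, hts.1, hts.2]
    set I := fl.image fun t => (g t).1 with hI
    set KK := (fl.sup fun t => (g t).2) + 1 with hKK
    have h2 : ∑ t ∈ fl, (1 / 2 : ℝ) ^ ((g t).2 + 1) =
        ∑ x ∈ fl.image g, (1 / 2 : ℝ) ^ (x.2 + 1) := by
      rw [Finset.sum_image hinj]
    have h3 : fl.image g ⊆ (I ×ˢ Finset.range KK).filter fun x => h x.1 ≤ x.2 := by
      intro x hx
      rw [Finset.mem_image] at hx
      obtain ⟨t, ht, rfl⟩ := hx
      rw [Finset.mem_filter, Finset.mem_product]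
      refine ⟨⟨Finset.mem_image.2 ⟨t, ht, rfl⟩, ?_⟩, ?_⟩
      · rw [Finset.mem_range, hKK]
        exact Nat.lt_succ_of_le (Finset.le_sup (f := fun t => (g t).2) ht)
      · rw [hfl, Finset.mem_filter] at ht
        exact (hit t ht.2).2
    have h4 : ∑ x ∈ fl.image g, (1 / 2 : ℝ) ^ (x.2 + 1) ≤
        ∑ x ∈ (I ×ˢ Finset.range KK).filter (fun x => h x.1 ≤ x.2), (1 / 2 : ℝ) ^ (x.2 + 1) :=
      Finset.sum_le_sum_of_subset_of_nonneg h3 fun x _ _ => by positivity
    rw [h1, h2]
    refine h4.trans ?_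
    rw [Finset.sum_filter, Finset.sum_product]
    calc _ ≤ ∑ σ ∈ I, (1 / 2 : ℝ) ^ (h σ) := Finset.sum_le_sum fun σ _ => geom (h σ) KK
      _ ≤ 1 := hs I
  obtain ⟨M, hM, hK⟩ := kraft_chaitin hR hr hout hsum
  refine ⟨M, hM, fun σ => ?_⟩
  have hex : ∃ j, D (pre B j) (Nat.pair (encode σ) (h σ)) = true := by
    have h1 := Part.dom_iff_mem.1 ((hdom σ (h σ)).2 le_rfl)
    obtain ⟨m, hm⟩ := h1
    obtain ⟨j, hj⟩ := (hF.spec _ _).1 hm
    refine ⟨max j (h σ), ?_⟩
    simp only [hDd, Bool.and_eq_true, decide_eq_true_eq, pre_length, Nat.unpair_pair, dL_encode,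
      and_true]
    exact ⟨by rw [hF.lift (le_max_left _ _) hj]; rfl, le_max_right _ _⟩
  obtain ⟨t, ht, htq⟩ := exists_newt hex
  have h1 := hK t _ ((hRs t _).2 ⟨ht, rfl⟩)
  rw [htq] at h1
  simp only [Nat.unpair_pair, dL_encode] at h1
  exact h1

/-! ### From machines to measures -/

theorem uniquely {S : Set (List Bool)} (h : ∀ p ∈ S, ∀ q ∈ S, p <+: q → p = q) (h0 : [] ∉ S) :
    InformationTheory.UniquelyDecodable S := by
  intro L₁
  induction L₁ with
  | nil =>
    intro L₂ _ h2 he
    rcases L₂ with _ | ⟨w, L₂⟩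
    · rfl
    · exfalso
      rw [List.flatten_nil, List.flatten_cons, eq_comm, List.append_eq_nil_iff] at he
      exact h0 (he.1 ▸ h2 w List.mem_cons_self)
  | cons v L₁ ih =>
    intro L₂ h1 h2 he
    rcases L₂ with _ | ⟨w, L₂⟩
    · exfalso
      rw [List.flatten_nil, List.flatten_cons, List.append_eq_nil_iff] at he
      exact h0 (he.1 ▸ h1 v List.mem_cons_self)
    · rw [List.flatten_cons, List.flatten_cons] at he
      have hv := h1 v List.mem_cons_self
      have hw := h2 w List.mem_cons_self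
      have hvw : v = w := by
        rcases List.prefix_or_prefix_of_prefix (l₁ := v) (l₂ := w) (l₃ := v ++ L₁.flatten)
          (List.prefix_append _ _) (he ▸ List.prefix_append _ _) with h3 | h3
        · exact h v hv w hw h3
        · exact (h w hw v hv h3).symm
      subst hvw
      rw [List.append_cancel_left_eq] at he
      rw [ih L₂ (fun x hx => h1 x (List.mem_cons_of_mem _ hx))
        (fun x hx => h2 x (List.mem_cons_of_mem _ hx)) he]

theorem kraft (S : Finset (List Bool)) (h : ∀ p ∈ S, ∀ q ∈ S, p <+: q → p = q) :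
    ∑ p ∈ S, (1 / 2 : ℝ) ^ p.length ≤ 1 := by
  by_cases h0 : [] ∈ S
  · have h1 : S ⊆ {[]} := by
      intro p hp
      rw [Finset.mem_singleton]
      exact (h [] h0 p hp List.nil_prefix).symm
    calc ∑ p ∈ S, (1 / 2 : ℝ) ^ p.length ≤ ∑ p ∈ ({[]} : Finset (List Bool)), (1 / 2 : ℝ) ^ p.length :=
          Finset.sum_le_sum_of_subset_of_nonneg h1 fun x _ _ => by positivity
      _ = 1 := by simp
  · have h1 := InformationTheory.kraft_mcmillan_inequality (S := S) (uniquely h h0)
    simpa using h1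

/-- The measure on the numbers given by a machine. -/
noncomputable def mf (M : List Bool →. List Bool) (s : ℕ → List Bool) (n : ℕ) : ℕ :=
  sInf ({L | ∃ p, s n ∈ M p ∧ p.length + 1 = L} ∪ {n + 2})

theorem mf_le_iff (M : List Bool →. List Bool) (s : ℕ → List Bool) (n k : ℕ) :
    mf M s n ≤ k ↔ n + 2 ≤ k ∨ ∃ p, s n ∈ M p ∧ p.length + 1 ≤ k := by
  constructor
  · intro h
    have hm := Nat.sInf_mem (s := {L | ∃ p, s n ∈ M p ∧ p.length + 1 = L} ∪ {n + 2})
      ⟨_, Or.inr rfl⟩
    change mf M s n ∈ _ at hm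
    rcases hm with ⟨p, hp, hl⟩ | hm
    · exact Or.inr ⟨p, hp, hl ▸ h⟩
    · rw [Set.mem_singleton_iff] at hm
      exact Or.inl (hm ▸ h)
  · rintro (h | ⟨p, hp, h⟩)
    · exact (Nat.sInf_le (Or.inr rfl)).trans h
    · exact (Nat.sInf_le (Or.inl ⟨p, hp, rfl⟩)).trans h

theorem mf_le_K (M : List Bool →. List Bool) (s : ℕ → List Bool) (n : ℕ) :
    (mf M s n : ℕ∞) ≤ K M (s n) + 1 := by
  have h : (mf M s n : ℕ∞) - 1 ≤ K M (s n) := by
    refine le_K fun p hp => ?_
    rw [tsub_le_iff_right]
    exact_mod_cast (mf_le_iff M s n (p.length + 1)).2 (Or.inr ⟨p, hp, le_rfl⟩)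
  rwa [tsub_le_iff_right] at h

theorem mf_sum {B : ℕ → Bool} {M : List Bool →. List Bool} (hM : Machine B M)
    {s : ℕ → List Bool} (hs : Function.Injective s) (E : Finset ℕ) :
    ∑ n ∈ E, (1 / 2 : ℝ) ^ (mf M s n) ≤ 1 := by
  classical
  have h1 : ∀ n, ∃ p : List Bool, mf M s n = n + 2 ∨ (s n ∈ M p ∧ p.length + 1 = mf M s n) := by
    intro n
    rcases (mf_le_iff M s n (mf M s n)).1 le_rfl with h | ⟨p, hp, h⟩
    · refine ⟨[], Or.inl (le_antisymm ?_ h)⟩
      exact (mf_le_iff M s n (n + 2)).2 (Or.inl le_rfl)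
    · refine ⟨p, Or.inr ⟨hp, le_antisymm h ?_⟩⟩
      exact (mf_le_iff M s n (p.length + 1)).2 (Or.inr ⟨p, hp, le_rfl⟩)
  choose p hp using h1
  set E1 := E.filter fun n => mf M s n = n + 2
  set E2 := E.filter fun n => ¬ mf M s n = n + 2 with hE2
  have h2 : ∑ n ∈ E1, (1 / 2 : ℝ) ^ (mf M s n) ≤ 1 / 2 := by
    have e1 : ∑ n ∈ E1, (1 / 2 : ℝ) ^ (mf M s n) = ∑ n ∈ E1, (1 / 2 : ℝ) ^ (n + 2) :=
      Finset.sum_congr rfl fun n hn => by rw [(Finset.mem_filter.1 hn).2]
    have e2 : ∑ n ∈ E1, (1 / 2 : ℝ) ^ (n + 2) ≤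
        ∑ n ∈ Finset.range ((E1.sup id) + 1), (1 / 2 : ℝ) ^ (n + 2) := by
      refine Finset.sum_le_sum_of_subset_of_nonneg ?_ fun x _ _ => by positivity
      intro n hn
      rw [Finset.mem_range]
      exact Nat.lt_succ_of_le (Finset.le_sup (f := id) hn)
    have e3 := geom 0 ((E1.sup id) + 1)
    simp only [Nat.zero_le, if_true, pow_zero] at e3
    have e4 : ∑ n ∈ Finset.range ((E1.sup id) + 1), (1 / 2 : ℝ) ^ (n + 2) =
        1 / 2 * ∑ n ∈ Finset.range ((E1.sup id) + 1), (1 / 2 : ℝ) ^ (n + 1) := by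
      rw [Finset.mul_sum]
      refine Finset.sum_congr rfl fun n _ => ?_
      rw [pow_succ _ (n + 1)]
      ring
    rw [e1]
    linarith
  have hp2 : ∀ n ∈ E2, s n ∈ M (p n) ∧ (p n).length + 1 = mf M s n := by
    intro n hn
    rcases hp n with h | h
    · exact absurd h (Finset.mem_filter.1 hn).2
    · exact h
  have hinj : Set.InjOn p E2 := by
    intro n hn m hm h
    have a1 := (hp2 n hn).1
    have a2 := (hp2 m hm).1
    rw [← h] at a2
    exact hs (Part.mem_unique a1 a2)
  have h3 : ∑ n ∈ E2, (1 / 2 : ℝ) ^ (mf M s n) ≤ 1 / 2 := by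
    have e1 : ∑ n ∈ E2, (1 / 2 : ℝ) ^ (mf M s n) =
        1 / 2 * ∑ n ∈ E2, (1 / 2 : ℝ) ^ (p n).length := by
      rw [Finset.mul_sum]
      refine Finset.sum_congr rfl fun n hn => ?_
      rw [← (hp2 n hn).2, pow_succ]
      ring
    have e2 : ∑ n ∈ E2, (1 / 2 : ℝ) ^ (p n).length =
        ∑ q ∈ E2.image p, (1 / 2 : ℝ) ^ q.length := by
      rw [Finset.sum_image hinj]
    have e3 := kraft (E2.image p) ?_
    · rw [e1, e2]
      linarith
    · intro a ha b hb hab
      rw [Finset.mem_image] at ha hb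
      obtain ⟨n, hn, rfl⟩ := ha
      obtain ⟨m, hm, rfl⟩ := hb
      exact hM.pf _ _ (Part.dom_iff_mem.2 ⟨_, (hp2 n hn).1⟩)
        (Part.dom_iff_mem.2 ⟨_, (hp2 m hm).1⟩) hab
  rw [← Finset.sum_filter_add_sum_filter_not E (fun n => mf M s n = n + 2)]
  linarith

theorem mf_semi {B : ℕ → Bool} {M : List Bool →. List Bool} (hM : Machine B M)
    {s : ℕ → List Bool} (hs : Computable s) :
    ∃ φ : ℕ →. ℕ, Nat.RecursiveIn {chi B} φ ∧
      ∀ n k : ℕ, (φ (Nat.pair n k)).Dom ↔ mf M s n ≤ k := by
  obtain ⟨F, hF⟩ := exists_rep hM.comp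
  have hspec : ∀ (p y : List Bool), y ∈ M p ↔ ∃ k, F (pre B k) (encode p) = some (encode y) := by
    intro p y
    rw [← hF.spec]
    simp only [encodek, Part.coe_some, Part.bind_some, Part.mem_map_iff]
    constructor
    · intro h
      exact ⟨y, h, rfl⟩
    · rintro ⟨z, hz, hzy⟩
      rwa [← encode_injective hzy]
  have hP : Computable₂ fun (x : ℕ) (β : List Bool) =>
      decide ((Nat.unpair x).1 + 2 ≤ (Nat.unpair x).2) ||
        (decide ((dL (Nat.unpair β.length).1).length + 1 ≤ (Nat.unpair x).2) &&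
          (decide (encode (dL (Nat.unpair β.length).1) = (Nat.unpair β.length).1) &&
          decide (F (β.take (Nat.unpair β.length).2) (Nat.unpair β.length).1 =
            some (encode (s (Nat.unpair x).1))))) := by
    have x1 : Computable fun q : ℕ × List Bool => (Nat.unpair q.1).1 :=
      Computable.fst.comp (Computable.unpair.comp Computable.fst)
    have x2 : Computable fun q : ℕ × List Bool => (Nat.unpair q.1).2 :=
      Computable.snd.comp (Computable.unpair.comp Computable.fst)
    have b1 : Computable fun q : ℕ × List Bool => (Nat.unpair q.2.length).1 :=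
      Computable.fst.comp (Computable.unpair.comp (Computable.list_length.comp Computable.snd))
    have b2 : Computable fun q : ℕ × List Bool => (Nat.unpair q.2.length).2 :=
      Computable.snd.comp (Computable.unpair.comp (Computable.list_length.comp Computable.snd))
    have hle : Computable₂ fun a b : ℕ => decide (a ≤ b) :=
      (PrimrecRel.decide Primrec.nat_le).to_comp
    have heq : Computable₂ fun a b : ℕ => decide (a = b) :=
      (PrimrecRel.decide Primrec.eq).to_comp
    have heqo : Computable₂ fun a b : Option ℕ => decide (a = b) :=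
      (PrimrecRel.decide Primrec.eq).to_comp
    have hor : Computable₂ (fun a b : Bool => a || b) := Primrec.or.to_comp
    have hand : Computable₂ (fun a b : Bool => a && b) := Primrec.and.to_comp
    refine hor.comp (hle.comp (Primrec.nat_add.to_comp.comp x1 (Computable.const 2)) x2) ?_
    refine hand.comp (hle.comp (Computable.succ.comp (Computable.list_length.comp
      (dL_prim.to_comp.comp b1))) x2) ?_
    refine hand.comp (heq.comp (Computable.encode.comp (dL_prim.to_comp.comp b1)) b1) ?_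
    refine heqo.comp (hF.comp.comp (Primrec.list_take.to_comp.comp b2 Computable.snd) b1) ?_
    exact Computable.option_some.comp (Computable.encode.comp (hs.comp x1))
  obtain ⟨φ, hφ, hd⟩ := semi (X := B) _ hP
  refine ⟨φ, hφ, fun n k => ?_⟩
  rw [hd, mf_le_iff]
  simp only [Nat.unpair_pair, Bool.or_eq_true, Bool.and_eq_true, decide_eq_true_eq, pre_length]
  constructor
  · rintro ⟨t, h | ⟨h1, h2, h3⟩⟩
    · exact Or.inl h
    · right
      rw [pre_take B (Nat.unpair_right_le t)] at h3
      refine ⟨dL (Nat.unpair t).1, (hspec _ _).2 ⟨(Nat.unpair t).2, ?_⟩, h1⟩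
      rw [h2]
      exact h3
  · rintro (h | ⟨p, hp, hl⟩)
    · exact ⟨0, Or.inl h⟩
    · obtain ⟨j, hj⟩ := (hspec _ _).1 hp
      refine ⟨Nat.pair (encode p) j, Or.inr ?_⟩
      have h1 : j ≤ Nat.pair (encode p) j := Nat.right_le_pair _ _
      simp only [Nat.unpair_pair, dL_encode]
      exact ⟨hl, trivial, by rw [pre_take B h1]; exact hj⟩

/-- The theorem of helper7 in terms of prefix-free machines. -/
theorem main_machine (A : ℕ → Bool)
    (hA : ∃ φ : ℕ →. ℕ, Nat.Partrec φ ∧ ∀ n, (φ n).Dom ↔ A n = true)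
    (hnc : ¬ Computable A) :
    ∃ B : ℕ → Bool,
      Nat.RecursiveIn {chi halt} (chi B) ∧
      ¬ Nat.RecursiveIn {chi B} (chi halt) ∧
      ¬ Nat.RecursiveIn {chi B} (chi A) ∧
      ∀ s : ℕ → List Bool, Computable s → Function.Injective s → ∀ M, Machine B M →
        ∃ M', Machine B M' ∧ ∃ c : ℕ, ∀ n, K M' (pre halt n) ≤ K M (s n) + c := by
  obtain ⟨B, h1, h2, h3, h4⟩ := Pool.Agent.Helper7.AC.main A hA hnc
  refine ⟨B, h1, h2, h3, fun s hs hsi M hM => ?_⟩
  obtain ⟨h, hψ, hsum, c, hc⟩ := h4 (mf M s) (mf_semi hM hs) (mf_sum hM hsi)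
  obtain ⟨M', hM', hK⟩ := machine_of_measure h hψ hsum
  refine ⟨M', hM', c + 3, fun n => ?_⟩
  calc K M' (pre halt n) ≤ ((h (pre halt n) + 2 : ℕ) : ℕ∞) := hK _
    _ ≤ ((mf M s n + c + 2 : ℕ) : ℕ∞) := by exact_mod_cast Nat.add_le_add_right (hc n) 2
    _ = (mf M s n : ℕ∞) + ((c + 2 : ℕ) : ℕ∞) := by push_cast; ring
    _ ≤ (K M (s n) + 1) + ((c + 2 : ℕ) : ℕ∞) := by gcongr; exact mf_le_K M s n
    _ = K M (s n) + ((c + 3 : ℕ) : ℕ∞) := by push_cast; ring

end Pool.Agent.Helper13.BK
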